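import Pool.Agent.CMG.Stmts

/-!
# CMG, row CHR: characters separate the points of a compact metrizable commutative group
-/

set_option autoImplicit false

open Set Topology MeasureTheory
open scoped BigOperators Pointwise Matrix

namespace Pool.Agent.CMG.H63

open Pool.Agent.LSG Pool.Agent.CMG

/-- common eigenvector -/
theorem chr_common {K : Type} [Group K] (hK : ∀ a b : K, a * b = b * a) {n : ℕ}
    (ρ : K →* Matrix.unitaryGroup (Fin n) ℂ) (W0 : Submodule ℂ (Fin n → ℂ)) (h0 : W0 ≠ ⊥)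
    (hinv : ∀ z, ∀ w ∈ W0, (ρ z).1 *ᵥ w ∈ W0) :
    ∃ v ∈ W0, v ≠ 0 ∧ ∀ z, ∃ c : ℂ, (ρ z).1 *ᵥ v = c • v := by
  classical
  let P : ℕ → Prop := fun d => ∃ W : Submodule ℂ (Fin n → ℂ), W ≠ ⊥ ∧ W ≤ W0 ∧
    (∀ z, ∀ w ∈ W, (ρ z).1 *ᵥ w ∈ W) ∧ Module.finrank ℂ W = d
  have hP : ∃ d, P d := ⟨_, W0, h0, le_rfl, hinv, rfl⟩
  obtain ⟨W, hW1, hW2, hW3, hW4⟩ := Nat.find_spec hP
  have hmin : ∀ d, P d → Nat.find hP ≤ d := fun d h => Nat.find_min' hP h
  obtain ⟨v, hv, hv0⟩ := W.exists_mem_ne_zero_of_ne_bot hW1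
  refine ⟨v, hW2 hv, hv0, fun z => ?_⟩
  have hnt : Nontrivial W := Submodule.nontrivial_iff_ne_bot.2 hW1
  let f : Module.End ℂ W := (Matrix.toLin' (ρ z).1).restrict (fun w hw => by
    rw [Matrix.toLin'_apply]
    exact hW3 z w hw)
  obtain ⟨c, hc⟩ := Module.End.exists_eigenvalue f
  obtain ⟨w0, hw0⟩ := hc.exists_hasEigenvector
  have hw1 : (ρ z).1 *ᵥ w0.1 = c • w0.1 := congrArg Subtype.val hw0.apply_eq_smul
  have hw2 : w0.1 ≠ 0 := fun h => hw0.2 (Subtype.ext h)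
  let W' : Submodule ℂ (Fin n → ℂ) :=
    W ⊓ LinearMap.ker (Matrix.toLin' (ρ z).1 - c • LinearMap.id)
  have hmem : ∀ w, w ∈ W' ↔ w ∈ W ∧ (ρ z).1 *ᵥ w = c • w := by
    intro w
    rw [Submodule.mem_inf, LinearMap.mem_ker, LinearMap.sub_apply, Matrix.toLin'_apply,
      LinearMap.smul_apply, LinearMap.id_apply, sub_eq_zero]
  have hW'1 : W' ≠ ⊥ := by
    intro h
    apply hw2
    have h1 : w0.1 ∈ W' := (hmem _).2 ⟨w0.2, hw1⟩
    rw [h] at h1
    exact (Submodule.mem_bot ℂ).1 h1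
  have hW'3 : ∀ z', ∀ w ∈ W', (ρ z').1 *ᵥ w ∈ W' := by
    intro z' w hw
    obtain ⟨h1, h2⟩ := (hmem w).1 hw
    refine (hmem _).2 ⟨hW3 z' w h1, ?_⟩
    have h3 : (ρ z).1 * (ρ z').1 = (ρ z').1 * (ρ z).1 := by
      have h4 : (ρ z) * (ρ z') = (ρ z') * (ρ z) := by rw [← map_mul, hK, map_mul]
      exact congrArg Subtype.val h4
    rw [Matrix.mulVec_mulVec, h3, ← Matrix.mulVec_mulVec, h2, Matrix.mulVec_smul]
  have hle : Module.finrank ℂ W ≤ Module.finrank ℂ W' := by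
    rw [hW4]
    exact hmin _ ⟨W', hW'1, inf_le_left.trans hW2, hW'3, rfl⟩
  have heq : W' = W := Submodule.eq_of_le_of_finrank_le inf_le_left hle
  have hv' : v ∈ W' := by
    rw [heq]
    exact hv
  exact ⟨c, ((hmem v).1 hv').2⟩

theorem chr_self {n : ℕ} (v : Fin n → ℂ) (h : star v ⬝ᵥ v = 0) : v = 0 := by
  have h1 : ((∑ i, Complex.normSq (v i) : ℝ) : ℂ) = 0 := by
    rw [Complex.ofReal_sum, ← h]
    simp only [dotProduct, Pi.star_apply]
    exact Finset.sum_congr rfl fun i _ => Complex.normSq_eq_conj_mul_self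
  have h2 : ∑ i, Complex.normSq (v i) = 0 := by exact_mod_cast h1
  rw [Finset.sum_eq_zero_iff_of_nonneg (fun i _ => Complex.normSq_nonneg _)] at h2
  funext i
  exact Complex.normSq_eq_zero.1 (h2 i (Finset.mem_univ i))

/-- unitary matrices preserve the inner product -/
theorem chr_iso {n : ℕ} (M : Matrix (Fin n) (Fin n) ℂ) (hM : Mᴴ * M = 1) (v : Fin n → ℂ) :
    star (M *ᵥ v) ⬝ᵥ (M *ᵥ v) = star v ⬝ᵥ v := by
  rw [Matrix.star_mulVec, ← Matrix.dotProduct_mulVec, Matrix.mulVec_mulVec, hM, Matrix.one_mulVec]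

/-- the range of `M - 1` contains no fixed vector -/
theorem chr_fix {n : ℕ} (M : Matrix (Fin n) (Fin n) ℂ) (hM : Mᴴ * M = 1) (v u : Fin n → ℂ)
    (hv : v = (M - 1) *ᵥ u) (hfix : M *ᵥ v = v) : v = 0 := by
  have h1 : Mᴴ *ᵥ v = v := by
    have h2 : Mᴴ *ᵥ (M *ᵥ v) = v := by
      rw [Matrix.mulVec_mulVec, hM, Matrix.one_mulVec]
    rwa [hfix] at h2
  have h3 : star v ⬝ᵥ (M *ᵥ u) = star v ⬝ᵥ u := by
    rw [Matrix.dotProduct_mulVec]
    have h4 : star v ᵥ* M = star v := by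
      have h5 := congrArg star h1
      rw [Matrix.star_mulVec, Matrix.conjTranspose_conjTranspose] at h5
      exact h5
    rw [h4]
  have h6 : star v ⬝ᵥ v = 0 := by
    have h7 : star v ⬝ᵥ v = star v ⬝ᵥ ((M - 1) *ᵥ u) := by rw [← hv]
    rw [h7, Matrix.sub_mulVec, Matrix.one_mulVec, dotProduct_sub, h3, sub_self]
  exact chr_self v h6

theorem chr (hP : PwnStmt) : ChrStmt := by
  classical
  intro K _ _ _ _ _ hK x hx
  obtain ⟨n, ρ, hcont, hne⟩ := hP K x hx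
  have hU : ∀ z, (ρ z).1ᴴ * (ρ z).1 = 1 := fun z => (Matrix.mem_unitaryGroup_iff').1 (ρ z).2
  let W0 : Submodule ℂ (Fin n → ℂ) := LinearMap.range (Matrix.toLin' ((ρ x).1 - 1))
  have h0 : W0 ≠ ⊥ := by
    intro h
    have h1 := LinearMap.range_eq_bot.1 h
    rw [LinearEquiv.map_eq_zero_iff, sub_eq_zero] at h1
    exact hne (Subtype.ext h1)
  have hinv : ∀ z, ∀ w ∈ W0, (ρ z).1 *ᵥ w ∈ W0 := by
    rintro z _ ⟨u, rfl⟩
    refine ⟨(ρ z).1 *ᵥ u, ?_⟩
    have h3 : (ρ z).1 * (ρ x).1 = (ρ x).1 * (ρ z).1 := by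
      have h4 : (ρ z) * (ρ x) = (ρ x) * (ρ z) := by rw [← map_mul, hK, map_mul]
      exact congrArg Subtype.val h4
    rw [Matrix.toLin'_apply, Matrix.toLin'_apply, Matrix.mulVec_mulVec, Matrix.mulVec_mulVec,
      Matrix.sub_mul, Matrix.mul_sub, h3, Matrix.one_mul, Matrix.mul_one]
  obtain ⟨v, hvW, hv0, hex⟩ := chr_common hK ρ W0 h0 hinv
  choose c hc using hex
  set s : ℂ := star v ⬝ᵥ v with hs
  have hs0 : s ≠ 0 := by
    intro h
    exact hv0 (chr_self v h)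
  have hform : ∀ z, c z = (star v ⬝ᵥ ((ρ z).1 *ᵥ v)) / s := by
    intro z
    rw [hc z, dotProduct_smul, smul_eq_mul, ← hs, mul_div_assoc, div_self hs0, mul_one]
  have hcc : Continuous c := by
    have h1 : c = fun z => (star v ⬝ᵥ ((ρ z).1 *ᵥ v)) / s := funext hform
    rw [h1]
    refine Continuous.div_const ?_ s
    refine Continuous.dotProduct continuous_const ?_
    exact Continuous.matrix_mulVec (continuous_subtype_val.comp hcont) continuous_const
  have hnorm : ∀ z, ‖c z‖ = 1 := by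
    intro z
    have h1 := chr_iso (ρ z).1 (hU z) v
    rw [hc z, star_smul, smul_dotProduct, dotProduct_smul, smul_eq_mul, smul_eq_mul, ← hs,
      ← mul_assoc] at h1
    have h2 : star (c z) * c z = 1 := mul_right_cancel₀ hs0 (by rw [h1, one_mul])
    have h3 : ((Complex.normSq (c z) : ℝ) : ℂ) = 1 := by
      rw [Complex.normSq_eq_conj_mul_self]
      exact h2
    have h4 : Complex.normSq (c z) = 1 := by exact_mod_cast h3
    rw [Complex.normSq_eq_norm_sq] at h4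
    exact (pow_eq_one_iff_of_nonneg (norm_nonneg _) two_ne_zero).1 h4
  have hinj : Function.Injective fun a : ℂ => a • v := smul_left_injective ℂ hv0
  have hone : c 1 = 1 := by
    apply hinj
    show c 1 • v = (1 : ℂ) • v
    rw [← hc 1, map_one, one_smul]
    exact Matrix.one_mulVec v
  have hmul : ∀ a b, c (a * b) = c a * c b := by
    intro a b
    apply hinj
    show c (a * b) • v = (c a * c b) • v
    rw [← hc (a * b), map_mul]
    show ((ρ a).1 * (ρ b).1) *ᵥ v = _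
    rw [← Matrix.mulVec_mulVec, hc b, Matrix.mulVec_smul, hc a, smul_smul, mul_comm]
  let χ : K →ₜ* Circle :=
    { toFun := fun z => ⟨c z, mem_sphere_zero_iff_norm.2 (hnorm z)⟩
      map_one' := Subtype.ext hone
      map_mul' := fun a b => Subtype.ext (hmul a b)
      continuous_toFun := Continuous.subtype_mk hcc _ }
  refine ⟨χ, fun h => ?_⟩
  have h1 : c x = 1 := congrArg Subtype.val h
  obtain ⟨u, hu⟩ := hvW
  rw [Matrix.toLin'_apply] at hu
  refine hv0 (chr_fix (ρ x).1 (hU x) v u hu.symm ?_)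
  rw [hc x, h1, one_smul]

end Pool.Agent.CMG.H63
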